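import Mathlib
import Pool.Agent.H.MP_c3854d_co.B

set_option autoImplicit false

namespace Pool.Agent.Results.MP_c3854d_co.Single

open Finset Equiv MvPolynomial

/-- `e i j`: elementary symmetric polynomial of degree `j` in the first `i` variables
`X 0, ..., X (i-1)`. -/
noncomputable def e (i j : ℕ) : MvPolynomial ℕ ℤ :=
  ∑ t ∈ (Finset.range i).powersetCard j, ∏ k ∈ t, X k

/-- the standard elementary monomial of a finitely supported sequence -/
noncomputable def sem (a : ℕ →₀ ℕ) : MvPolynomial ℕ ℤ := a.prod fun i j => e i j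

/-- `S` is the family of Schubert polynomials of `S_n`: the longest element gets the staircase
monomial, and `S (w s_i)` is the divided difference of `S w` at every descent `i` of `w`. -/
def IsSchubert (n : ℕ) (S : Perm (Fin n) → MvPolynomial ℕ ℤ) : Prop :=
  S Fin.revPerm = ∏ i : Fin n, X (i : ℕ) ^ (n - 1 - (i : ℕ)) ∧
  ∀ (w : Perm (Fin n)) (i j : Fin n), (j : ℕ) = (i : ℕ) + 1 → w j < w i →
    (X (i : ℕ) - X (j : ℕ)) * S (w * swap i j) = S w - rename (swap (i : ℕ) (j : ℕ)) (S w)

open Pool.Agent.H.MP_c3854d_co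

noncomputable def ι {n : ℕ} (w : Perm (Fin n)) : P := w.viaEmbedding Fin.valEmbedding

lemma ι_apply {n : ℕ} (w : Perm (Fin n)) (i : Fin n) : ι w i = w i :=
  w.viaEmbedding_apply Fin.valEmbedding i

lemma ι_InS {n : ℕ} (w : Perm (Fin n)) : InS n (ι w) := fun p hp =>
  w.viaEmbedding_apply_of_notMem Fin.valEmbedding p (by
    rintro ⟨i, rfl⟩
    have := i.2
    simp only [Fin.valEmbedding_apply] at hp
    omega)

lemma ι_ext {n : ℕ} {w : Perm (Fin n)} {v : P} (hv : InS n v) (h : ∀ i : Fin n, v i = w i) :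
    ι w = v := by
  ext p
  by_cases hp : p < n
  · exact (ι_apply w ⟨p, hp⟩).trans (h ⟨p, hp⟩).symm
  · rw [ι_InS w p (by omega), hv p (by omega)]

lemma ι_swap {n : ℕ} (w : Perm (Fin n)) (i j : Fin n) (hj : (j : ℕ) = i + 1) :
    ι (w * swap i j) = ι w * s i := by
  refine ι_ext ((ι_InS w).mul (InS_s (hj ▸ j.2))) fun k => ?_
  rw [Perm.mul_apply, Perm.mul_apply, ← ι_apply]
  congr 1
  rw [s_apply, swap_apply_def]
  simp only [← Fin.val_inj]
  split_ifs <;> omega

lemma ι_rev (n : ℕ) : ι (Fin.revPerm : Perm (Fin n)) = w0 n := by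
  refine ι_ext (InS_w0 n) fun k => ?_
  rw [w0_apply, if_pos k.2]
  simp only [Fin.revPerm_apply, Fin.val_rev]
  omega

lemma G_isSchubert (n : ℕ) : IsSchubert n (fun w => G n (ι w)) := by
  refine ⟨?_, fun w i j hj hw => ?_⟩
  · show G n (ι _) = _
    rw [ι_rev, G_top]
    exact (Fin.prod_univ_eq_prod_range (fun i => (X i : A) ^ (n - 1 - i)) n).symm
  · have := G_dd n (ι w) i (hj ▸ j.2)
    rw [U_apply, ← hj, ι_apply, ι_apply, if_pos (by exact_mod_cast hw), ← ι_swap w i j hj] at this
    rw [this, s, hj]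

lemma eq_G {n : ℕ} {S : Perm (Fin n) → MvPolynomial ℕ ℤ} (hS : IsSchubert n S)
    (w : Perm (Fin n)) : S w = G n (ι w) := by
  have hG := G_isSchubert n
  induction hp : pot n (ι w) using Nat.strong_induction_on generalizing w with
  | _ k ih =>
    by_cases hd : ∀ i, i + 1 < n → ι w (i + 1) < ι w i
    · have e1 := eq_w0 (ι_InS w) hd
      have e2 : w = Fin.revPerm := by
        ext i
        rw [← ι_apply, e1, ← ι_rev, ι_apply]
      rw [e2, hS.1]
      exact hG.1.symm
    · push Not at hd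
      obtain ⟨i, hi, hd⟩ := hd
      have hne : ι w i ≠ ι w (i + 1) := fun e => by have := (ι w).injective e; omega
      set a : Fin n := ⟨i, by omega⟩
      set b : Fin n := ⟨i + 1, hi⟩
      have e1 : ι (w * swap a b) = ι w * s i := ι_swap w a b rfl
      have e := pot_s hi (ι w)
      have z := ih _ (by rw [e1]; omega) (w * swap a b) rfl
      have hlt : (w * swap a b) b < (w * swap a b) a := by
        simp only [Perm.mul_apply, swap_apply_left, swap_apply_right]
        have h1 : ι w i = w a := ι_apply w a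
        have h2 : ι w (i + 1) = w b := ι_apply w b
        rw [Fin.lt_def]; omega
      have t1 := hS.2 _ a b rfl hlt
      have t2 := hG.2 _ a b rfl hlt
      simp only [mul_swap_mul_self] at t1 t2
      rw [z, ← t2] at t1
      exact mul_left_cancel₀ (X_sub_ne i) t1

theorem result (n : ℕ) :
    (∃! S : Perm (Fin n) → MvPolynomial ℕ ℤ, IsSchubert n S) ∧
    ∀ S : Perm (Fin n) → MvPolynomial ℕ ℤ, IsSchubert n S →
      ∀ (w : Perm (Fin n)) (c : (ℕ →₀ ℕ) →₀ ℤ),
        (∀ a ∈ c.support, ∀ i, a i ≤ i) → S w = c.sum (fun a k => k • sem a) →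
        (∀ a, 0 ≤ c a) → ∃ a : ℕ →₀ ℕ, (∀ i, a i ≤ i) ∧ S w = sem a := by
  refine ⟨⟨_, G_isSchubert n, fun S hS => funext fun w => eq_G hS w⟩, ?_⟩
  intro S hS w c h1 h2 h3
  obtain ⟨M, hM⟩ := (c.support.biUnion fun a => a.support).exists_le
  have hs : ∀ a ∈ c.support, sem a = ∏ r ∈ range (n + M + 1), E r (a r) := by
    intro a ha
    refine Finsupp.prod_of_support_subset a (fun i hi => ?_) _ fun i _ => by simp [e]
    have := hM i (mem_biUnion.2 ⟨a, ha, hi⟩)
    rw [mem_range]; omega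
  have e1 : S w = G (n + M + 1) (ι w) := by
    rw [eq_G hS, G_stable (show n ≤ n + M + 1 by omega) _ (ι_InS w)]
  obtain ⟨b, hb, hb'⟩ := single ((ι_InS w).mono (show n ≤ n + M + 1 by omega)) c.support c
    (fun a => a) h1 (fun b _ => h3 b) (by
      rw [← e1, h2]
      exact sum_congr rfl fun a ha => by rw [← hs a ha])
  exact ⟨b, h1 b hb, by rw [e1, hb', hs b hb]⟩

end Pool.Agent.Results.MP_c3854d_co.Single
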